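import Pool.Agent.helper23.F2.Spec

set_option autoImplicit false

open scoped BigOperators

namespace Pool.Agent.F2

open Pool.Agent.helper23.TH

noncomputable section

open Classical

theorem WK1_cons {V : Type} (A : V → V → Prop) (j : ℕ) (x : V) (Q : Fin (j + 1) → V) :
    Wk A (j + 1) (Fin.cons x Q : Fin (j + 2) → V) ↔ A x (Q 0) ∧ Wk A j Q := by
  unfold Wk
  rw [Fin.forall_fin_succ]
  refine and_congr ?_ ?_
  · simp
  · refine forall_congr' ?_
    intro i
    have h1 : (i.succ.castSucc : Fin (j + 2)) = (i.castSucc).succ := rfl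
    rw [h1, Fin.cons_succ, Fin.cons_succ]

theorem WK1_step {V L : Type} [Fintype V] {b s : ℕ} (G : LG V L b s) (t : ℕ) (x y : V)
    (R : (Fin (t + 2) → V) → Prop) [DecidablePred R] :
    ((G.WW (t + 1) x y).filter fun P => R P).card =
      ∑ w, if G.A x w then ((G.WW t w y).filter fun P => R (Fin.cons x P)).card else 0 := by
  have h1 : ((G.WW (t + 1) x y).filter fun P => R P).card =
      ((Finset.univ : Finset (Fin (t + 1) → V)).filter
        (fun Q => (G.A x (Q 0) ∧ Wk G.A t Q ∧ Q (Fin.last t) = y) ∧ R (Fin.cons x Q))).card := by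
    symm
    refine Finset.card_bij (fun Q _ => (Fin.cons x Q : Fin (t + 2) → V)) ?_ ?_ ?_
    · intro Q hQ
      simp only [LG.WW, Finset.mem_filter, Finset.mem_univ, true_and] at hQ ⊢
      refine ⟨⟨(WK1_cons G.A t x Q).2 ⟨hQ.1.1, hQ.1.2.1⟩, rfl, ?_⟩, hQ.2⟩
      have : (Fin.last (t + 1) : Fin (t + 2)) = (Fin.last t).succ := rfl
      rw [this, Fin.cons_succ]
      exact hQ.1.2.2
    · intro Q _ Q' _ h
      exact Fin.cons_right_injective (α := fun _ => V) x h
    · intro P hP
      simp only [LG.WW, Finset.mem_filter, Finset.mem_univ, true_and] at hP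
      have hP' : P = (Fin.cons x (Fin.tail P) : Fin (t + 2) → V) := by
        rw [← hP.1.2.1]
        exact (Fin.cons_self_tail P).symm
      refine ⟨Fin.tail P, ?_, ?_⟩
      · simp only [Finset.mem_filter, Finset.mem_univ, true_and]
        have h2 := hP.1.1
        rw [hP', WK1_cons] at h2
        refine ⟨⟨h2.1, h2.2, hP.1.2.2⟩, ?_⟩
        rw [← hP']
        exact hP.2
      · exact hP'.symm
  rw [h1]
  rw [Finset.card_eq_sum_card_fiberwise (f := fun Q => Q 0) (t := Finset.univ)
    (fun _ _ => Finset.mem_univ _)]
  refine Finset.sum_congr rfl ?_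
  intro c _
  split_ifs with hA
  · congr 1
    ext Q
    simp only [LG.WW, Finset.mem_filter, Finset.mem_univ, true_and]
    constructor
    · rintro ⟨⟨⟨_, h2, h3⟩, h5⟩, h4⟩
      exact ⟨⟨h2, h4, h3⟩, h5⟩
    · rintro ⟨⟨h2, h4, h3⟩, h5⟩
      exact ⟨⟨⟨by rw [h4]; exact hA, h2, h3⟩, h5⟩, h4⟩
  · rw [Finset.card_eq_zero]
    ext Q
    simp only [Finset.mem_filter, Finset.mem_univ, true_and, Finset.notMem_empty, iff_false]
    rintro ⟨⟨⟨h1, _, _⟩, _⟩, h4⟩
    rw [h4] at h1
    exact hA h1

/-- the number of walks -/
theorem WK1_num {V L : Type} [Fintype V] {b s : ℕ} (G : LG V L b s) (t : ℕ) (y : V) :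
    ∀ x : V, ((G.WW t x y).card : ℝ) = (am G.A ^ t) x y := by
  induction t with
  | zero =>
    intro x
    rw [pow_zero]
    have hlast : (Fin.last 0 : Fin 1) = 0 := rfl
    by_cases hxy : x = y
    · subst hxy
      rw [Matrix.one_apply_eq]
      have : G.WW 0 x x = {fun _ => x} := by
        ext P
        simp only [LG.WW, Finset.mem_filter, Finset.mem_univ, true_and, Finset.mem_singleton]
        constructor
        · rintro ⟨_, h, _⟩
          funext i
          have hi : i = 0 := Fin.fin_one_eq_zero i
          rw [hi, h]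
        · rintro rfl
          exact ⟨fun i => i.elim0, rfl, rfl⟩
      rw [this]
      simp
    · rw [Matrix.one_apply_ne hxy]
      have : G.WW 0 x y = ∅ := by
        ext P
        simp only [LG.WW, Finset.mem_filter, Finset.mem_univ, true_and, Finset.notMem_empty, iff_false]
        rintro ⟨_, h, h'⟩
        rw [hlast] at h'
        exact hxy (h.symm.trans h')
      rw [this]
      simp
  | succ t ih =>
    intro x
    have h1 := WK1_step G t x y (fun _ => True)
    simp only [Finset.filter_true] at h1
    rw [h1, pow_succ', Matrix.mul_apply]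
    push_cast
    refine Finset.sum_congr rfl fun w _ => ?_
    rw [← ih w]
    unfold am
    rw [Matrix.of_apply]
    split_ifs with hA
    · simp
    · simp

theorem WK1_start {V L : Type} [Fintype V] {b s : ℕ} (G : LG V L b s) (t : ℕ) (z : L) (x y : V) :
    (((G.WW t x y).filter fun P => z ∈ G.obj P (.inl 0)).card : ℝ) = G.MM t z (.inl 0) x y := by
  have h1 : G.MM t z (.inl 0) x y = (if z ∈ G.lv x then 1 else 0) * (am G.A ^ t) x y := by
    show (am G.A ^ 0 * G.PM z * am G.A ^ (t - 0)) x y = _
    rw [pow_zero, Matrix.one_mul, Nat.sub_zero]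
    unfold LG.PM
    rw [Matrix.diagonal_mul]
  rw [h1]
  by_cases hz : z ∈ G.lv x
  · rw [if_pos hz, one_mul, ← WK1_num]
    congr 2
    refine Finset.filter_true_of_mem fun P hP => ?_
    simp only [LG.WW, Finset.mem_filter, Finset.mem_univ, true_and] at hP
    show z ∈ G.lv (P 0)
    rw [hP.2.1]
    exact hz
  · rw [if_neg hz, zero_mul]
    rw [Finset.filter_false_of_mem]
    · simp
    · intro P hP
      simp only [LG.WW, Finset.mem_filter, Finset.mem_univ, true_and] at hP
      show ¬ z ∈ G.lv (P 0)
      rw [hP.2.1]
      exact hz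

theorem WK1 : WK1_stmt := by
  intro V L _ b s G t z
  induction t with
  | zero =>
    intro o x y
    rcases o with i | j
    · have hi : i = 0 := Fin.fin_one_eq_zero i
      subst hi
      exact WK1_start G 0 z x y
    · exact j.elim0
  | succ t ih =>
    intro o x y
    rcases o with i | j
    · refine Fin.cases ?_ (fun i => ?_) i
      · exact WK1_start G (t + 1) z x y
      · have h0 := WK1_step G t x y (fun P => z ∈ G.obj P (Sum.inl i.succ))
        refine (congrArg (fun n : ℕ => (n : ℝ)) h0).trans ?_
        have h1 : G.MM (t + 1) z (.inl i.succ) x y = (am G.A * G.MM t z (.inl i)) x y := by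
          show (am G.A ^ (i.succ : Fin (t + 2)).1 * G.PM z * am G.A ^ (t + 1 - (i.succ : Fin (t + 2)).1)) x y =
            (am G.A * (am G.A ^ i.1 * G.PM z * am G.A ^ (t - i.1))) x y
          rw [Fin.val_succ, pow_succ', Nat.add_sub_add_right, ← Matrix.mul_assoc, ← Matrix.mul_assoc]
        rw [h1, Matrix.mul_apply]
        push_cast
        refine Finset.sum_congr rfl fun w _ => ?_
        rw [← ih (.inl i) w y]
        unfold am
        rw [Matrix.of_apply]
        split_ifs with hA
        · rw [one_mul]
          rfl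
        · simp
    · refine Fin.cases ?_ (fun j => ?_) j
      · have h0 := WK1_step G t x y (fun P => z ∈ G.obj P (Sum.inr 0))
        refine (congrArg (fun n : ℕ => (n : ℝ)) h0).trans ?_
        have h1 : G.MM (t + 1) z (.inr 0) x y = (G.AM z * am G.A ^ t) x y := by
          show (am G.A ^ 0 * G.AM z * am G.A ^ (t + 1 - 1 - 0)) x y = _
          rw [pow_zero, Matrix.one_mul, Nat.add_sub_cancel, Nat.sub_zero]
        rw [h1, Matrix.mul_apply]
        push_cast
        refine Finset.sum_congr rfl fun w _ => ?_
        rw [← WK1_num]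
        unfold LG.AM
        rw [Matrix.of_apply]
        by_cases hA : G.A x w
        · by_cases hz : z ∈ G.le x w
          · rw [if_pos hA, if_pos ⟨hA, hz⟩, one_mul]
            congr 2
            refine Finset.filter_true_of_mem fun P hP => ?_
            simp only [LG.WW, Finset.mem_filter, Finset.mem_univ, true_and] at hP
            show z ∈ G.le x (P 0)
            rw [hP.2.1]
            exact hz
          · rw [if_pos hA, if_neg (fun h => hz h.2), zero_mul]
            rw [Finset.filter_false_of_mem]
            · simp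
            · intro P hP
              simp only [LG.WW, Finset.mem_filter, Finset.mem_univ, true_and] at hP
              show ¬ z ∈ G.le x (P 0)
              rw [hP.2.1]
              exact hz
        · rw [if_neg hA, if_neg (fun h => hA h.1), zero_mul]
      · have h0 := WK1_step G t x y (fun P => z ∈ G.obj P (Sum.inr j.succ))
        refine (congrArg (fun n : ℕ => (n : ℝ)) h0).trans ?_
        have h1 : G.MM (t + 1) z (.inr j.succ) x y = (am G.A * G.MM t z (.inr j)) x y := by
          show (am G.A ^ (j.succ : Fin (t + 1)).1 * G.AM z * am G.A ^ (t + 1 - 1 - (j.succ : Fin (t + 1)).1)) x y =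
            (am G.A * (am G.A ^ j.1 * G.AM z * am G.A ^ (t - 1 - j.1))) x y
          have h2 : t + 1 - 1 - (j.1 + 1) = t - 1 - j.1 := by omega
          rw [Fin.val_succ, pow_succ', h2, ← Matrix.mul_assoc, ← Matrix.mul_assoc]
        rw [h1, Matrix.mul_apply]
        push_cast
        refine Finset.sum_congr rfl fun w _ => ?_
        rw [← ih (.inr j) w y]
        unfold am
        rw [Matrix.of_apply]
        split_ifs with hA
        · rw [one_mul]
          rfl
        · simp

end

end Pool.Agent.F2
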